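import Pool.Agent.X308.Ci.Hyper

/-!
# Curves on very general complete intersections: the reductions
-/

set_option autoImplicit false

namespace Pool.Agent.X308.Ci

/-- The question in dimension `n + 1` implies the question in dimension `n`. -/
theorem Question.pred {n r : ℕ} (h : Question (n + 1) r) : Question n r := by
  obtain ⟨D, hD⟩ := h
  refine ⟨D, fun d hd => Divisible.section ?_⟩
  have h1 := hD d hd
  rwa [show n + 1 + r = n + r + 1 by omega] at h1

theorem Question.anti {n n' r : ℕ} (hn : n ≤ n') (h : Question n' r) : Question n r := by
  induction n', hn using Nat.le_induction with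
  | base => exact h
  | succ m _ ih => exact ih h.pred

/-- Hypersurfaces of infinitely many dimensions and all complete intersections with pairwise
coprime degrees. -/
theorem infinitely_many_iff :
    (∀ n, ∃ n', n ≤ n' ∧ Question n' 1) ↔ ∀ n r, ∃ D : ℕ, ∀ d : Fin r → ℕ, (∀ i, D < d i) →
      Pairwise (Function.onFun Nat.Coprime d) → Divisible (n + r) d (∏ i, d i) 1 := by
  rw [← hypersurfaces_iff]
  constructor
  · intro h n
    obtain ⟨n', hn, h'⟩ := h n
    exact h'.anti hn
  · intro h n
    exact ⟨n, le_rfl, h n⟩

end Pool.Agent.X308.Ci
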