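import Pool.Agent.X308.Ci.Section
import Mathlib.RingTheory.Polynomial.Basic
import Mathlib.Data.Finsupp.Weight

/-!
# Curves on very general complete intersections: hyperplane sections, continued
-/

set_option autoImplicit false

namespace Pool.Agent.X308.Ci

open MvPolynomial

variable {N : ℕ}

/-- Setting the first variable to zero. -/
noncomputable def phi (N : ℕ) : MvPolynomial (Fin (N + 1 + 1)) ℂ →ₐ[ℂ] MvPolynomial (Fin (N + 1)) ℂ :=
  ((Polynomial.aeval (0 : MvPolynomial (Fin (N + 1)) ℂ)).restrictScalars ℂ).comp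
    (finSuccEquiv ℂ (N + 1)).toAlgHom

lemma coeff_phi (f : MvPolynomial (Fin (N + 1 + 1)) ℂ) (m : Fin (N + 1) →₀ ℕ) :
    coeff m (phi N f) = coeff (m.cons 0) f := by
  rw [← finSuccEquiv_coeff_coeff]
  congr 1
  exact (Polynomial.coeff_zero_eq_aeval_zero _).symm

lemma degree_cons (m : Fin (N + 1) →₀ ℕ) : (m.cons 0).degree = m.degree := by
  rw [Finsupp.degree_eq_sum, Finsupp.degree_eq_sum, Fin.sum_univ_succ, Finsupp.cons_zero, zero_add]
  rfl

lemma phi_rename (p : MvPolynomial (Fin (N + 1)) ℂ) : phi N (rename Fin.succ p) = p := by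
  have h : (phi N).comp (rename Fin.succ) = AlgHom.id ℂ (MvPolynomial (Fin (N + 1)) ℂ) := by
    refine algHom_ext fun i => ?_
    rw [AlgHom.comp_apply, rename_X]
    change Polynomial.aeval (0 : MvPolynomial (Fin (N + 1)) ℂ) (finSuccEquiv ℂ (N + 1) (X i.succ)) = _
    rw [finSuccEquiv_X_succ, Polynomial.aeval_C]
    rfl
  exact DFunLike.congr_fun h p

lemma phi_surjective : Function.Surjective (phi N) := fun p => ⟨_, phi_rename p⟩

lemma phi_homogeneousComponent (k : ℕ) (p : MvPolynomial (Fin (N + 1 + 1)) ℂ) :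
    phi N (homogeneousComponent k p) = homogeneousComponent k (phi N p) := by
  ext m
  rw [coeff_phi, coeff_homogeneousComponent, coeff_homogeneousComponent, coeff_phi, degree_cons]

lemma map_phi (k : ℕ) : (homogeneousSubmodule (Fin (N + 1 + 1)) ℂ k).map (phi N).toLinearMap =
    homogeneousSubmodule (Fin (N + 1)) ℂ k := by
  apply le_antisymm
  · rintro _ ⟨p, hp, rfl⟩
    have h1 : homogeneousComponent k p = p := homogeneousComponent_eq_self hp
    have h2 : (phi N).toLinearMap p = homogeneousComponent k (phi N p) := by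
      rw [← phi_homogeneousComponent, h1]
      rfl
    rw [h2]
    exact homogeneousComponent_mem _ _
  · intro p hp
    exact ⟨rename Fin.succ p, IsHomogeneous.rename_isHomogeneous hp, phi_rename p⟩

/-- The map from the coordinate ring of the curve in the larger projective space. -/
noncomputable def quotMap (I : Ideal (MvPolynomial (Fin (N + 1)) ℂ)) :
    (MvPolynomial (Fin (N + 1 + 1)) ℂ ⧸ I.comap (phi N)) →ₐ[ℂ] MvPolynomial (Fin (N + 1)) ℂ ⧸ I :=
  Ideal.Quotient.liftₐ (I.comap (phi N)) ((Ideal.Quotient.mkₐ ℂ I).comp (phi N))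
    fun _ ha => Ideal.Quotient.eq_zero_iff_mem.2 ha

lemma quotMap_injective (I : Ideal (MvPolynomial (Fin (N + 1)) ℂ)) :
    Function.Injective (quotMap I) := by
  rw [injective_iff_map_eq_zero]
  intro x hx
  obtain ⟨p, rfl⟩ := Ideal.Quotient.mk_surjective x
  have hx' : Ideal.Quotient.mk I (phi N p) = 0 := hx
  have hp' : phi N p ∈ I := Ideal.Quotient.eq_zero_iff_mem.1 hx'
  have hp : p ∈ I.comap (phi N) := hp'
  exact Ideal.Quotient.eq_zero_iff_mem.2 hp

lemma quotMap_surjective (I : Ideal (MvPolynomial (Fin (N + 1)) ℂ)) :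
    Function.Surjective (quotMap I) := by
  intro y
  obtain ⟨q, rfl⟩ := Ideal.Quotient.mk_surjective y
  obtain ⟨p, rfl⟩ := phi_surjective q
  exact ⟨Ideal.Quotient.mk _ p, rfl⟩

/-- The curve, seen in the larger projective space. -/
noncomputable def quotEquiv (I : Ideal (MvPolynomial (Fin (N + 1)) ℂ)) :
    (MvPolynomial (Fin (N + 1 + 1)) ℂ ⧸ I.comap (phi N)) ≃ₐ[ℂ] MvPolynomial (Fin (N + 1)) ℂ ⧸ I :=
  AlgEquiv.ofBijective (quotMap I) ⟨quotMap_injective I, quotMap_surjective I⟩

lemma isCurve_comap {I : Ideal (MvPolynomial (Fin (N + 1)) ℂ)} (hI : IsCurve I) :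
    IsCurve (N := N + 1) (I.comap (phi N)) := by
  obtain ⟨h1, h2, h3⟩ := hI
  refine ⟨fun p hp k => ?_, h2.comap _, ?_⟩
  · rw [Ideal.mem_comap, phi_homogeneousComponent]
    exact h1 _ hp k
  · rw [ringKrullDim_eq_of_ringEquiv (quotEquiv I).toRingEquiv, h3]

lemma finrank_comap (I : Ideal (MvPolynomial (Fin (N + 1)) ℂ)) (k : ℕ) :
    Module.finrank ℂ (Submodule.map (Ideal.Quotient.mkₐ ℂ (I.comap (phi N))).toLinearMap
      (homogeneousSubmodule (Fin (N + 1 + 1)) ℂ k)) =
    Module.finrank ℂ (Submodule.map (Ideal.Quotient.mkₐ ℂ I).toLinearMap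
      (homogeneousSubmodule (Fin (N + 1)) ℂ k)) := by
  rw [← LinearEquiv.finrank_map_eq (quotEquiv I).toLinearEquiv, ← Submodule.map_comp,
    ← map_phi (N := N) k, ← Submodule.map_comp]
  rfl

lemma degreeAt_comap (I : Ideal (MvPolynomial (Fin (N + 1)) ℂ)) (k : ℕ) :
    degreeAt (N := N + 1) (I.comap (phi N)) k = degreeAt I k := by
  rw [degreeAt, degreeAt, finrank_comap, finrank_comap]

instance finite_monomials (n d : ℕ) : Finite {m : Fin n →₀ ℕ // m.degree = d} := by
  have h := Finsupp.finite_of_degree_le (σ := Fin n) d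
  exact Set.Finite.subset h (fun m (hm : m.degree = d) => hm.le)

/-- The evaluation at a point of `ι ⊕ κ` in two steps. -/
lemma eval_sum {ι κ : Type} (g : ι → ℂ) (c : κ → ℂ) (q : MvPolynomial (ι ⊕ κ) ℂ) :
    eval (Sum.elim g c) q = eval g (map (eval c) (sumAlgEquiv ℂ ι κ q)) := by
  have h : (eval (Sum.elim g c) : MvPolynomial (ι ⊕ κ) ℂ →+* ℂ) =
      (eval g).comp ((map (eval c)).comp (sumAlgEquiv ℂ ι κ : _ →+* _)) := by
    refine ringHom_ext (fun r => ?_) fun i => ?_
    · simp [sumAlgEquiv_C_inl]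
    · cases i with
      | inl i => simp [sumAlgEquiv_X_inl]
      | inr i => simp [sumAlgEquiv_X_inr]
  exact DFunLike.congr_fun h q

/-- The embedding of the coefficients of the restricted forms. -/
noncomputable def emb {r : ℕ} (d : Fin r → ℕ) (x : Σ i : Fin r, {m : Fin (N + 1) →₀ ℕ // m.degree = d i}) :
    Σ i : Fin r, {m : Fin (N + 1 + 1) →₀ ℕ // m.degree = d i} :=
  ⟨x.1, ⟨x.2.1.cons 0, by rw [degree_cons]; exact x.2.2⟩⟩

lemma emb_injective {r : ℕ} (d : Fin r → ℕ) : Function.Injective (emb (N := N) d) := by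
  rintro ⟨i, m, hm⟩ ⟨i', m', hm'⟩ h
  rw [emb, emb, Sigma.mk.injEq] at h
  obtain ⟨rfl, h⟩ := h
  have h1 : (m.cons 0 : Fin (N + 1 + 1) →₀ ℕ) = m'.cons 0 := by
    simpa using h
  have h2 : m = m' := by
    rw [← Finsupp.tail_cons 0 m, h1, Finsupp.tail_cons]
  subst h2
  rfl

/-- **Hyperplane sections**: divisibility in the dimension `N + 1` implies divisibility in the
dimension `N`. -/
theorem Divisible.section {r : ℕ} {d : Fin r → ℕ} {M g : ℕ} (h : Divisible (N + 1) d M g) :
    Divisible N d M g := by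
  classical
  obtain ⟨bad, h0, h1⟩ := h
  let V := Σ i : Fin r, {m : Fin (N + 1 + 1) →₀ ℕ // m.degree = d i}
  let V₀ := Σ i : Fin r, {m : Fin (N + 1) →₀ ℕ // m.degree = d i}
  let V₁ := ((Set.range (emb (N := N) d))ᶜ : Set V)
  let E : V₁ ⊕ V₀ ≃ V := (Equiv.sumComm _ _).trans
    (((Equiv.ofInjective _ (emb_injective (N := N) d)).sumCongr (Equiv.refl _)).trans
      (Equiv.Set.sumCompl (Set.range (emb (N := N) d))))
  have hE : ∀ x : V₀, E (Sum.inr x) = emb d x := fun x => rfl
  let Q : ℕ → MvPolynomial V₁ (MvPolynomial V₀ ℂ) := fun j =>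
    sumAlgEquiv ℂ V₁ V₀ (rename E.symm (bad j))
  have hQ : ∀ j, Q j ≠ 0 := fun j hj => by
    apply h0 j
    refine rename_injective _ E.symm.injective ?_
    rw [map_zero]
    exact (map_eq_zero_iff _ (sumAlgEquiv ℂ V₁ V₀).injective).1 hj
  choose m hm using fun j => ne_zero_iff.1 (hQ j)
  refine ⟨fun j => coeff (m j) (Q j), hm, fun f hf hb I hI hfI => ?_⟩
  let c : V₀ → ℂ := fun x => coeff x.2.1 (f x.1)
  have hq : ∀ j, map (eval c) (Q j) ≠ 0 := fun j hj => by
    apply hb j
    have := congrArg (coeff (m j)) hj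
    rwa [coeff_map, coeff_zero] at this
  obtain ⟨b, hb'⟩ := exists_point (fun j => map (eval c) (Q j)) hq
  let a : V → ℂ := fun x => Sum.elim b c (E.symm x)
  have ha : ∀ x : V₀, a (emb d x) = c x := fun x => by
    change Sum.elim b c (E.symm (emb d x)) = c x
    rw [← hE, Equiv.symm_apply_apply]
    rfl
  have hbad : ∀ j, eval a (bad j) ≠ 0 := fun j hj => by
    apply hb' j
    change eval b (map (eval c) (sumAlgEquiv ℂ V₁ V₀ (rename E.symm (bad j)))) = 0
    rw [← eval_sum, eval_rename]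
    exact hj
  have : ∀ i, Fintype {m : Fin (N + 1 + 1) →₀ ℕ // m.degree = d i} := fun i => Fintype.ofFinite _
  let F : Fin r → MvPolynomial (Fin (N + 1 + 1)) ℂ := fun i =>
    ∑ m : {m : Fin (N + 1 + 1) →₀ ℕ // m.degree = d i}, monomial m.1 (a ⟨i, m⟩)
  have hF : ∀ i, F i ∈ homogeneousSubmodule (Fin (N + 1 + 1)) ℂ (d i) := fun i =>
    Submodule.sum_mem _ fun m _ => isHomogeneous_monomial _ m.2
  have hFc : ∀ x : V, coeff x.2.1 (F x.1) = a x := by
    rintro ⟨i, m⟩
    change coeff m.1 (∑ m' : {m : Fin (N + 1 + 1) →₀ ℕ // m.degree = d i},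
      monomial m'.1 (a ⟨i, m'⟩)) = a ⟨i, m⟩
    rw [coeff_sum, Finset.sum_eq_single m]
    · rw [coeff_monomial, if_pos rfl]
    · intro m' _ hne
      rw [coeff_monomial, if_neg fun h => hne (Subtype.ext h)]
    · intro h
      exact absurd (Finset.mem_univ m) h
  have hphi : ∀ i, phi N (F i) = f i := by
    intro i
    ext m
    rw [coeff_phi]
    by_cases hd : m.degree = d i
    · have h2 := hFc (emb d ⟨i, ⟨m, hd⟩⟩)
      rw [ha] at h2
      exact h2
    · rw [IsHomogeneous.coeff_eq_zero (hF i) (by rwa [degree_cons]),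
        IsHomogeneous.coeff_eq_zero (hf i) hd]
  have h3 : (fun x : V => coeff x.2.1 (F x.1)) = a := funext hFc
  obtain ⟨K, hK⟩ := h1 F hF (fun j => by rw [h3]; exact hbad j) (I.comap (phi N))
    (isCurve_comap hI) fun i => by
      rw [Ideal.mem_comap, hphi]
      exact hfI i
  exact ⟨K, fun k hk => by rw [← degreeAt_comap]; exact hK k hk⟩

end Pool.Agent.X308.Ci
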