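import Mathlib.RingTheory.MvPolynomial.Homogeneous
import Mathlib.RingTheory.KrullDimension.Basic
import Mathlib.RingTheory.Ideal.Quotient.Operations
import Mathlib.RingTheory.Coprime.Lemmas
import Mathlib.Analysis.Complex.Basic
import Mathlib.LinearAlgebra.Dimension.Finrank
import Mathlib.Algebra.GCDMonoid.Finset
import Mathlib.Algebra.GCDMonoid.Nat
import Mathlib.Logic.Encodable.Basic
import Mathlib.Data.Countable.Basic

/-!
# Curves on very general complete intersections: from few to many equations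
-/

set_option autoImplicit false

namespace Pool.Agent.X308.Ci

open MvPolynomial

/-- The homogeneous prime ideals of the irreducible curves in the projective space of dimension
`N` over `ℂ`. -/
def IsCurve {N : ℕ} (I : Ideal (MvPolynomial (Fin (N + 1)) ℂ)) : Prop :=
  (∀ p ∈ I, ∀ k : ℕ, homogeneousComponent k p ∈ I) ∧ I.IsPrime ∧
    ringKrullDim (MvPolynomial (Fin (N + 1)) ℂ ⧸ I) = 2

/-- The difference of two consecutive values of the Hilbert function, which is the degree of the
curve for large `k`. -/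
noncomputable def degreeAt {N : ℕ} (I : Ideal (MvPolynomial (Fin (N + 1)) ℂ)) (k : ℕ) : ℤ :=
  (Module.finrank ℂ (Submodule.map (Ideal.Quotient.mkₐ ℂ I).toLinearMap
    (homogeneousSubmodule (Fin (N + 1)) ℂ (k + 1))) : ℤ) -
  (Module.finrank ℂ (Submodule.map (Ideal.Quotient.mkₐ ℂ I).toLinearMap
    (homogeneousSubmodule (Fin (N + 1)) ℂ k)) : ℤ)

/-- `M` divides `g` times the degree of the curve. -/
def DividesMul {N : ℕ} (M g : ℕ) (I : Ideal (MvPolynomial (Fin (N + 1)) ℂ)) : Prop :=
  ∃ K : ℕ, ∀ k : ℕ, K ≤ k → (M : ℤ) ∣ (g : ℤ) * degreeAt I k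

/-- The property `P` holds for all very general systems of forms of degrees `d i` in `N + 1`
variables: outside countably many proper closed subsets of the space of coefficients. -/
def VeryGeneral (N : ℕ) {r : ℕ} (d : Fin r → ℕ)
    (P : (Fin r → MvPolynomial (Fin (N + 1)) ℂ) → Prop) : Prop :=
  ∃ bad : ℕ → MvPolynomial (Σ i : Fin r, {m : Fin (N + 1) →₀ ℕ // m.degree = d i}) ℂ,
    (∀ j, bad j ≠ 0) ∧
    ∀ f : Fin r → MvPolynomial (Fin (N + 1)) ℂ,
      (∀ i, f i ∈ homogeneousSubmodule (Fin (N + 1)) ℂ (d i)) →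
      (∀ j, eval (fun x => coeff x.2.1 (f x.1)) (bad j) ≠ 0) → P f

/-- For very general forms `f i` of degrees `d i` in `N + 1` variables, `M` divides `g` times the
degree of every curve in the common zero locus. -/
def Divisible (N : ℕ) {r : ℕ} (d : Fin r → ℕ) (M g : ℕ) : Prop :=
  VeryGeneral N d fun f => ∀ I, IsCurve I → (∀ i, f i ∈ I) → DividesMul M g I

/-- The question for complete intersections of dimension `n` of `r` hypersurfaces. -/
def Question (n r : ℕ) : Prop :=
  ∃ D : ℕ, ∀ d : Fin r → ℕ, (∀ i, D < d i) → Divisible (n + r) d (∏ i, d i) 1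

lemma VeryGeneral.mono {N r : ℕ} {d : Fin r → ℕ}
    {P Q : (Fin r → MvPolynomial (Fin (N + 1)) ℂ) → Prop} (h : VeryGeneral N d P)
    (hPQ : ∀ f, P f → Q f) : VeryGeneral N d Q := by
  obtain ⟨bad, h0, h1⟩ := h
  exact ⟨bad, h0, fun f hf hb => hPQ f (h1 f hf hb)⟩

lemma VeryGeneral.of_forall {N r : ℕ} {d : Fin r → ℕ}
    {P : (Fin r → MvPolynomial (Fin (N + 1)) ℂ) → Prop} (h : ∀ f, P f) : VeryGeneral N d P :=
  ⟨fun _ => 1, fun _ => one_ne_zero, fun f _ _ => h f⟩

/-- Forgetting some of the equations. -/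
lemma VeryGeneral.comp {N r r' : ℕ} {d : Fin r → ℕ} {σ : Fin r' → Fin r}
    (hσ : Function.Injective σ) {P : (Fin r' → MvPolynomial (Fin (N + 1)) ℂ) → Prop}
    (h : VeryGeneral N (fun j => d (σ j)) P) : VeryGeneral N d fun f => P fun j => f (σ j) := by
  obtain ⟨bad, h0, h1⟩ := h
  let e : (Σ i : Fin r', {m : Fin (N + 1) →₀ ℕ // m.degree = d (σ i)}) →
      Σ i : Fin r, {m : Fin (N + 1) →₀ ℕ // m.degree = d i} := Sigma.map σ fun _ => id
  have he : Function.Injective e := Function.Injective.sigma_map hσ fun _ => Function.injective_id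
  refine ⟨fun j => rename e (bad j), fun j hj => h0 j ?_, fun f hf hb => ?_⟩
  · have hj' : rename e (bad j) = 0 := hj
    exact rename_injective e he (by rw [hj', map_zero])
  · refine h1 _ (fun i => hf (σ i)) fun j hj => hb j ?_
    change eval _ (rename e (bad j)) = 0
    rw [eval_rename]
    exact hj

/-- A countable intersection of very general properties is very general. -/
lemma VeryGeneral.forall {ι : Type} [Countable ι] {N r : ℕ} {d : Fin r → ℕ}
    {P : ι → (Fin r → MvPolynomial (Fin (N + 1)) ℂ) → Prop} (h : ∀ i, VeryGeneral N d (P i)) :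
    VeryGeneral N d fun f => ∀ i, P i f := by
  rcases isEmpty_or_nonempty ι with hι | hι
  · exact VeryGeneral.of_forall fun f i => (hι.false i).elim
  choose bad h0 h1 using h
  obtain ⟨s, hs⟩ := exists_surjective_nat (ι × ℕ)
  refine ⟨fun k => bad (s k).1 (s k).2, fun k => h0 _ _, fun f hf hb i => h1 i f hf fun j => ?_⟩
  obtain ⟨k, hk⟩ := hs (i, j)
  have hbk : eval (fun x => coeff x.2.1 (f x.1)) (bad (s k).1 (s k).2) ≠ 0 := hb k
  rwa [hk] at hbk

lemma Divisible.comp {N r r' : ℕ} {d : Fin r → ℕ} {σ : Fin r' → Fin r}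
    (hσ : Function.Injective σ) {M g : ℕ} (h : Divisible N (fun j => d (σ j)) M g) :
    Divisible N d M g :=
  (VeryGeneral.comp hσ h).mono fun _ hf I hI hfI => hf I hI fun j => hfI (σ j)

/-- If all divisibilities of a finite family hold for large `k`, a consequence holds as well. -/
lemma dividesMul_of_forall {N : ℕ} {ι : Type} [Fintype ι] {M : ι → ℕ} {M' g' : ℕ}
    {I : Ideal (MvPolynomial (Fin (N + 1)) ℂ)} (h : ∀ i, DividesMul (M i) 1 I)
    (h' : ∀ z : ℤ, (∀ i, (M i : ℤ) ∣ z) → (M' : ℤ) ∣ (g' : ℤ) * z) : DividesMul M' g' I := by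
  choose K hK using h
  refine ⟨Finset.univ.sup K, fun k hk => h' _ fun i => ?_⟩
  have := hK i k ((Finset.le_sup (Finset.mem_univ i)).trans hk)
  rwa [Nat.cast_one, one_mul] at this

/-- **Pairwise coprime degrees**: divisibility for all hypersurfaces containing the complete
intersection implies divisibility by the product. -/
theorem divisible_of_hypersurfaces {N r : ℕ} (d : Fin r → ℕ)
    (hd : Pairwise (Function.onFun Nat.Coprime d))
    (h : ∀ i, Divisible N (fun _ : Fin 1 => d i) (d i) 1) : Divisible N d (∏ i, d i) 1 := by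
  have h1 : ∀ i, Divisible N d (d i) 1 := fun i =>
    Divisible.comp (σ := fun _ : Fin 1 => i) (Function.injective_of_subsingleton _) (h i)
  refine (VeryGeneral.forall h1).mono fun f hf I hI hfI => ?_
  refine dividesMul_of_forall (fun i => hf i I hI hfI) fun z hz => ?_
  rw [Nat.cast_one, one_mul, Nat.cast_prod]
  refine Finset.prod_dvd_of_coprime (fun i _ j _ hij => ?_) fun i _ => hz i
  exact Nat.isCoprime_iff_coprime.2 (hd hij)

/-- **One more equation**: divisibility for the `r + 1` complete intersections obtained by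
forgetting one equation. -/
theorem divisible_of_forget {N r : ℕ} (d : Fin (r + 1) → ℕ)
    (h : ∀ i : Fin (r + 1), Divisible N (fun j : Fin r => d (i.succAbove j))
      (∏ j : Fin r, d (i.succAbove j)) 1) :
    Divisible N d (∏ i, d i) (Finset.univ.gcd d) := by
  have h1 : ∀ i : Fin (r + 1), Divisible N d (∏ j : Fin r, d (i.succAbove j)) 1 := fun i =>
    Divisible.comp (σ := fun j => i.succAbove j) Fin.succAbove_right_injective (h i)
  refine (VeryGeneral.forall h1).mono fun f hf I hI hfI => ?_
  refine dividesMul_of_forall (fun i => hf i I hI hfI) fun z hz => ?_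
  have h2 : ∀ i, ∏ j, d j ∣ d i * z.natAbs := by
    intro i
    rw [Fin.prod_univ_succAbove d i]
    exact mul_dvd_mul_left _ (Int.natCast_dvd.1 (hz i))
  have h3 : ∏ j, d j ∣ Finset.univ.gcd d * z.natAbs := by
    have h4 : ∏ j, d j ∣ Finset.univ.gcd fun i => d i * z.natAbs :=
      Finset.dvd_gcd fun i _ => h2 i
    rwa [Finset.gcd_mul_right, normalize_eq] at h4
  have h5 : ((∏ j, d j : ℕ) : ℤ) ∣ ((Finset.univ.gcd d * z.natAbs : ℕ) : ℤ) :=
    Int.natCast_dvd_natCast.2 h3
  rw [Nat.cast_mul, Int.natCast_natAbs] at h5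
  exact (dvd_abs _ _).1 (by rwa [abs_mul, Nat.abs_cast])

/-- The question for `r` equations in dimension `n + 1` settles the question for `r + 1` equations
in dimension `n` up to the greatest common divisor of the degrees. -/
theorem question_succ {n r : ℕ} (h : Question (n + 1) r) :
    ∃ D : ℕ, ∀ d : Fin (r + 1) → ℕ, (∀ i, D < d i) →
      Divisible (n + (r + 1)) d (∏ i, d i) (Finset.univ.gcd d) := by
  obtain ⟨D, hD⟩ := h
  refine ⟨D, fun d hd => divisible_of_forget d fun i => ?_⟩
  have h1 := hD (fun j => d (i.succAbove j)) fun j => hd _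
  rwa [show n + 1 + r = n + (r + 1) by omega] at h1

/-- Hypersurfaces and complete intersections with pairwise coprime degrees. -/
theorem hypersurfaces_iff :
    (∀ n, Question n 1) ↔ ∀ n r, ∃ D : ℕ, ∀ d : Fin r → ℕ, (∀ i, D < d i) →
      Pairwise (Function.onFun Nat.Coprime d) → Divisible (n + r) d (∏ i, d i) 1 := by
  constructor
  · intro h n r
    rcases Nat.eq_zero_or_pos r with rfl | hr
    · refine ⟨0, fun d _ _ => VeryGeneral.of_forall fun f I _ _ => ⟨0, fun k _ => ?_⟩⟩
      simp
    · obtain ⟨D, hD⟩ := h (n + r - 1)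
      refine ⟨D, fun d hd hc => divisible_of_hypersurfaces d hc fun i => ?_⟩
      have h1 := hD (fun _ => d i) fun _ => hd i
      rw [show n + r - 1 + 1 = n + r by omega] at h1
      simpa using h1
  · intro h n
    obtain ⟨D, hD⟩ := h n 1
    refine ⟨D, fun d hd => hD d hd ?_⟩
    intro i j hij
    exact absurd (Subsingleton.elim i j) hij

end Pool.Agent.X308.Ci
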