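import Pool.Agent.X308.Ci.Main
import Mathlib.Algebra.MvPolynomial.Equiv
import Mathlib.Algebra.MvPolynomial.Funext
import Mathlib.Algebra.Order.Antidiag.Finsupp
import Mathlib.Analysis.Complex.Cardinality
import Mathlib.LinearAlgebra.FiniteDimensional.Basic

/-!
# Curves on very general complete intersections: hyperplane sections
-/

set_option autoImplicit false

namespace Pool.Agent.X308.Ci

open MvPolynomial

/-- Countably many nonzero polynomials over `ℂ` in finitely many variables have a common
nonvanishing point. -/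
lemma exists_point_fin (n : ℕ) : ∀ q : ℕ → MvPolynomial (Fin n) ℂ, (∀ j, q j ≠ 0) →
    ∃ g : Fin n → ℂ, ∀ j, eval g (q j) ≠ 0 := by
  induction n with
  | zero =>
    intro q hq
    refine ⟨fun i => i.elim0, fun j h => hq j ?_⟩
    obtain ⟨c, hc⟩ := C_surjective (Fin 0) (q j)
    rw [← hc, eval_C] at h
    rw [← hc, h, map_zero]
  | succ n ih =>
    intro q hq
    have h1 : ∀ j, (finSuccEquiv ℂ n (q j)).leadingCoeff ≠ 0 := fun j h => by
      rw [Polynomial.leadingCoeff_eq_zero] at h
      exact hq j ((map_eq_zero_iff _ (finSuccEquiv ℂ n).injective).1 h)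
    obtain ⟨g, hg⟩ := ih _ h1
    have h2 : ∀ j, Polynomial.map (eval g) (finSuccEquiv ℂ n (q j)) ≠ 0 := fun j h => by
      apply hg j
      have := congrArg (fun P => Polynomial.coeff P (finSuccEquiv ℂ n (q j)).natDegree) h
      simpa [Polynomial.coeff_map] using this
    have h3 : (⋃ j, {y : ℂ | (Polynomial.map (eval g) (finSuccEquiv ℂ n (q j))).IsRoot y}).Countable :=
      Set.countable_iUnion fun j => (Polynomial.finite_setOf_isRoot (h2 j)).countable
    obtain ⟨y, hy⟩ : ∃ y : ℂ, y ∉ ⋃ j,
        {y : ℂ | (Polynomial.map (eval g) (finSuccEquiv ℂ n (q j))).IsRoot y} := by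
      by_contra hcon
      push Not at hcon
      exact not_countable_complex (h3.mono fun y _ => hcon y)
    refine ⟨Fin.cons y g, fun j h => hy ?_⟩
    rw [eval_eq_eval_mv_eval'] at h
    exact Set.mem_iUnion.2 ⟨j, h⟩

lemma exists_point {σ : Type} [Finite σ] (q : ℕ → MvPolynomial σ ℂ) (hq : ∀ j, q j ≠ 0) :
    ∃ g : σ → ℂ, ∀ j, eval g (q j) ≠ 0 := by
  obtain ⟨n, ⟨e⟩⟩ := Finite.exists_equiv_fin σ
  obtain ⟨g, hg⟩ := exists_point_fin n (fun j => rename e (q j)) fun j h =>
    hq j (rename_injective e e.injective (by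
      have h' : rename e (q j) = 0 := h
      rw [h', map_zero]))
  refine ⟨g ∘ e, fun j h => hg j ?_⟩
  change eval g (rename e (q j)) = 0
  rw [eval_rename]
  exact h

end Pool.Agent.X308.Ci
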